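import Pool.Agent.Lib.Pbbea99G.E6.Data

/-!
# MP_bbea99_co: closure of the templates
-/

namespace MPbbea99G.E6

open MPbbea99S MPbbea99T MPbbea99G Finset

theorem c_670_671 : allTr (chkV P V lk) tr_670_671 = true := by decide +kernel

theorem c_420_461 : allTr (chkV P V lk) tr_420_461 = true := by decide +kernel

theorem c_231_251 : allTr (chkV P V lk) tr_231_251 = true := by decide +kernel

theorem c_630_635 : allTr (chkV P V lk) tr_630_635 = true := by decide +kernel

theorem c_84_167 : allTr (chkV P V lk) tr_84_167 = true := by decide +kernel

theorem c_567_587 : allTr (chkV P V lk) tr_567_587 = true := by decide +kernel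

theorem c_336_356 : allTr (chkV P V lk) tr_336_356 = true := by decide +kernel

theorem c_651_661 : allTr (chkV P V lk) tr_651_661 = true := by decide +kernel

theorem c_662_666 : allTr (chkV P V lk) tr_662_666 = true := by decide +kernel

theorem c_294_335 : allTr (chkV P V lk) tr_294_335 = true := by decide +kernel

theorem c_0_41 : allTr (chkV P V lk) tr_0_41 = true := by decide +kernel

theorem c_588_629 : allTr (chkV P V lk) tr_588_629 = true := by decide +kernel

theorem c_473_482 : allTr (chkV P V lk) tr_473_482 = true := by decide +kernel

theorem c_641_650 : allTr (chkV P V lk) tr_641_650 = true := by decide +kernel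

theorem c_546_566 : allTr (chkV P V lk) tr_546_566 = true := by decide +kernel

theorem c_378_419 : allTr (chkV P V lk) tr_378_419 = true := by decide +kernel

theorem c_252_293 : allTr (chkV P V lk) tr_252_293 = true := by decide +kernel

theorem c_168_209 : allTr (chkV P V lk) tr_168_209 = true := by decide +kernel

theorem c_42_83 : allTr (chkV P V lk) tr_42_83 = true := by decide +kernel

theorem c_636_640 : allTr (chkV P V lk) tr_636_640 = true := by decide +kernel

theorem c_504_545 : allTr (chkV P V lk) tr_504_545 = true := by decide +kernel

theorem ck_669 : (chkV P V lk) 0x1000100000002000200020002000240014001400040003fff3fff = true := by decide +kernel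

theorem c_462_472 : allTr (chkV P V lk) tr_462_472 = true := by decide +kernel

theorem c_667_669 : allTr (chkV P V lk) tr_667_669 = true := by decide +kernel

theorem c_483_503 : allTr (chkV P V lk) tr_483_503 = true := by decide +kernel

theorem c_210_230 : allTr (chkV P V lk) tr_210_230 = true := by decide +kernel

theorem ck_629 : (chkV P V lk) 0x100000002000100030001000140004001400040013ffe4000 = true := by decide +kernel

theorem c_357_377 : allTr (chkV P V lk) tr_357_377 = true := by decide +kernel

theorem ck_472 : (chkV P V lk) 0x800010025001300014002400040003fff3fff4000 = true := by decide +kernel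

theorem ck_635 : (chkV P V lk) 0x1000000000004000200030003000140014001400040003fff3fff = true := by decide +kernel

theorem ck_666 : (chkV P V lk) 0x10000000100090001000500050000400040004000400040004000 = true := by decide +kernel

theorem ck_566 : (chkV P V lk) 0x1000700000006000200003fff400140003fff40014000 = true := by decide +kernel

theorem ck_640 : (chkV P V lk) 0x1000000000006000200080008000140014001400040003fff3fff = true := by decide +kernel

theorem ck_650 : (chkV P V lk) 0x1000000000008000200120012000140014001400040003fff3fff = true := by decide +kernel

theorem ck_661 : (chkV P V lk) 0x10000000000080002001e001e000240014001400040003fff3fff = true := by decide +kernel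

theorem ck_461 : (chkV P V lk) 0x800010016001c000240014000400140003ffe4000 = true := by decide +kernel

theorem ck_482 : (chkV P V lk) 0x800010031001d000240014002400040013ffe3ffe = true := by decide +kernel

theorem ck_503 : (chkV P V lk) 0x9000000210038000640013fff3fff400040004001 = true := by decide +kernel

theorem ck_83 : (chkV P V lk) 0x2001300180008400040013fff3fff40023fff = true := by decide +kernel

theorem ck_251 : (chkV P V lk) 0x400020016002800234002400340013ffe3fff3ffd = true := by decide +kernel

theorem ck_545 : (chkV P V lk) 0x900020017000b0003400240023fff3fff3fff3fff = true := by decide +kernel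

theorem ck_41 : (chkV P V lk) 0x1001600000018400140023ffe3fff40004000 = true := by decide +kernel

theorem ck_356 : (chkV P V lk) 0x6000200280036002340014002400140003fff3ffd = true := by decide +kernel

theorem ck_209 : (chkV P V lk) 0x30002001f000f0003400340003fff3fff40003fff = true := by decide +kernel

theorem ck_293 : (chkV P V lk) 0x500020003003b003340004000400140003fff4000 = true := by decide +kernel

theorem ck_377 : (chkV P V lk) 0x70001001700250003400240013fff40003ffe4000 = true := by decide +kernel

theorem ck_419 : (chkV P V lk) 0x70002002e000300214001400240003ffe3ffd4002 = true := by decide +kernel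

theorem ck_587 : (chkV P V lk) 0x1000000000000002e001300133fff3fff4000400040014001 = true := by decide +kernel

theorem ck_335 : (chkV P V lk) 0x60000002d000c000240004001400240013fff3ffd = true := by decide +kernel

theorem ck_230 : (chkV P V lk) 0x40000001e00060002400240013ffe400040013ffe = true := by decide +kernel

theorem ck_167 : (chkV P V lk) 0x200020030000d003a40024000400040003ffd4001 = true := by decide +kernel

end MPbbea99G.E6
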