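import Pool.Agent.Lib.Pbbea99G.E6.Data

/-!
# MP_bbea99_co: windows over the templates
-/

namespace MPbbea99G.E6

open MPbbea99S MPbbea99T MPbbea99G Finset

theorem o_504_545 : allTr oF tr_504_545 = true := by decide +kernel

theorem o_557_566 : allTr oF tr_557_566 = true := by decide +kernel

theorem o_630_635 : allTr oF tr_630_635 = true := by decide +kernel

theorem o_336_346 : allTr oF tr_336_346 = true := by decide +kernel

theorem o_588_629 : allTr oF tr_588_629 = true := by decide +kernel

theorem o_126_167 : allTr oF tr_126_167 = true := by decide +kernel

theorem o_641_645 : allTr oF tr_641_645 = true := by decide +kernel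

theorem o_651_656 : allTr oF tr_651_656 = true := by decide +kernel

theorem o_399_419 : allTr oF tr_399_419 = true := by decide +kernel

theorem o_646_650 : allTr oF tr_646_650 = true := by decide +kernel

theorem o_210_230 : allTr oF tr_210_230 = true := by decide +kernel

theorem o_662_664 : allTr oF tr_662_664 = true := by decide +kernel

theorem o_42_62 : allTr oF tr_42_62 = true := by decide +kernel

theorem o_667_669 : allTr oF tr_667_669 = true := by decide +kernel

theorem o_357_377 : allTr oF tr_357_377 = true := by decide +kernel

theorem o_84_104 : allTr oF tr_84_104 = true := by decide +kernel

theorem o_420_430 : allTr oF tr_420_430 = true := by decide +kernel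

theorem o_570_572 : allTr oF tr_570_572 = true := by decide +kernel

theorem o_378_398 : allTr oF tr_378_398 = true := by decide +kernel

theorem o_670_671 : allTr oF tr_670_671 = true := by decide +kernel

theorem ok_666 : oF 0x10000000100090001000500050000400040004000400040004000 = true := by decide +kernel

theorem o_315_335 : allTr oF tr_315_335 = true := by decide +kernel

theorem o_578_587 : allTr oF tr_578_587 = true := by decide +kernel

theorem ok_566 : oF 0x1000700000006000200003fff400140003fff40014000 = true := by decide +kernel

theorem o_457_461 : allTr oF tr_457_461 = true := by decide +kernel

theorem ok_503 : oF 0x9000000210038000640013fff3fff400040004001 = true := by decide +kernel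

theorem ok_656 : oF 0x1000000000008000200190019000240014001400040003fff3fff = true := by decide +kernel

theorem ok_661 : oF 0x10000000000080002001e001e000240014001400040003fff3fff = true := by decide +kernel

theorem ok_569 : oF 0x100090000000900040000400140003fff40013fff4000 = true := by decide +kernel

theorem o_242_251 : allTr oF tr_242_251 = true := by decide +kernel

theorem ok_635 : oF 0x1000000000004000200030003000140014001400040003fff3fff = true := by decide +kernel

theorem ok_629 : oF 0x100000002000100030001000140004001400040013ffe4000 = true := by decide +kernel

theorem ok_461 : oF 0x800010016001c000240014000400140003ffe4000 = true := by decide +kernel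

theorem ok_482 : oF 0x800010031001d000240014002400040013ffe3ffe = true := by decide +kernel

theorem ok_451 : oF 0x800000036001700024003400240003fff3fff3ffd = true := by decide +kernel

theorem ok_456 : oF 0x800010009000c000e3fff4001400240033ffe3ffd = true := by decide +kernel

theorem ok_356 : oF 0x6000200280036002340014002400140003fff3ffd = true := by decide +kernel

theorem ok_104 : oF 0x20023000100293fff40013ffe40023fff4001 = true := by decide +kernel

theorem ok_41 : oF 0x1001600000018400140023ffe3fff40004000 = true := by decide +kernel

theorem ok_545 : oF 0x900020017000b0003400240023fff3fff3fff3fff = true := by decide +kernel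

theorem ok_587 : oF 0x1000000000000002e001300133fff3fff4000400040014001 = true := by decide +kernel

theorem ok_20 : oF 0x29001e002b400240004001400040003ffd = true := by decide +kernel

theorem ok_62 : oF 0x1002b000f000740033fff400040013fff3ffe = true := by decide +kernel

theorem ok_230 : oF 0x40000001e00060002400240013ffe400040013ffe = true := by decide +kernel

theorem ok_314 : oF 0x500020035002400044003400040003fff40013ffd = true := by decide +kernel

theorem ok_377 : oF 0x70001001700250003400240013fff40003ffe4000 = true := by decide +kernel

theorem ok_440 : oF 0x80000001f00190002400340003ffe40013fff3fff = true := by decide +kernel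

end MPbbea99G.E6
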