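import Pool.Agent.Lib.Pbbea99G.E6.Data

/-!
# MP_bbea99_co: windows over the templates
-/

namespace MPbbea99G.E6

open MPbbea99S MPbbea99T MPbbea99G Finset

theorem o_294_314 : allTr oF tr_294_314 = true := by decide +kernel

theorem o_0_10 : allTr oF tr_0_10 = true := by decide +kernel

theorem o_74_83 : allTr oF tr_74_83 = true := by decide +kernel

theorem o_452_456 : allTr oF tr_452_456 = true := by decide +kernel

theorem o_168_209 : allTr oF tr_168_209 = true := by decide +kernel

theorem o_231_241 : allTr oF tr_231_241 = true := by decide +kernel

theorem o_252_293 : allTr oF tr_252_293 = true := by decide +kernel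

theorem o_657_661 : allTr oF tr_657_661 = true := by decide +kernel

theorem o_462_472 : allTr oF tr_462_472 = true := by decide +kernel

theorem o_105_125 : allTr oF tr_105_125 = true := by decide +kernel

theorem o_636_640 : allTr oF tr_636_640 = true := by decide +kernel

theorem o_431_440 : allTr oF tr_431_440 = true := by decide +kernel

theorem o_483_503 : allTr oF tr_483_503 = true := by decide +kernel

theorem o_347_356 : allTr oF tr_347_356 = true := by decide +kernel

theorem o_478_482 : allTr oF tr_478_482 = true := by decide +kernel

theorem o_567_569 : allTr oF tr_567_569 = true := by decide +kernel

theorem o_473_477 : allTr oF tr_473_477 = true := by decide +kernel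

theorem o_573_577 : allTr oF tr_573_577 = true := by decide +kernel

theorem o_11_20 : allTr oF tr_11_20 = true := by decide +kernel

theorem ok_472 : oF 0x800010025001300014002400040003fff3fff4000 = true := by decide +kernel

theorem o_21_41 : allTr oF tr_21_41 = true := by decide +kernel

theorem ok_556 : oF 0x900020030001b003440014001400040003fff3fff = true := by decide +kernel

theorem o_665_666 : allTr oF tr_665_666 = true := by decide +kernel

theorem ok_664 : oF 0x10000000100090001000300030000400040004000400040004000 = true := by decide +kernel

theorem ok_669 : oF 0x1000100000002000200020002000240014001400040003fff3fff = true := by decide +kernel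

theorem o_546_556 : allTr oF tr_546_556 = true := by decide +kernel

theorem ok_640 : oF 0x1000000000006000200080008000140014001400040003fff3fff = true := by decide +kernel

theorem ok_650 : oF 0x1000000000008000200120012000140014001400040003fff3fff = true := by decide +kernel

theorem ok_645 : oF 0x10000000000060002000d000d000240014001400040003fff3fff = true := by decide +kernel

theorem ok_572 : oF 0x100090000000c000500004000400140013fff3fff4000 = true := by decide +kernel

theorem o_441_451 : allTr oF tr_441_451 = true := by decide +kernel

theorem o_63_73 : allTr oF tr_63_73 = true := by decide +kernel

theorem ok_477 : oF 0x80001002a00180002400040013fff400040004000 = true := by decide +kernel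

theorem ok_241 : oF 0x40001000d00060002400240013fff3fff40003fff = true := by decide +kernel

theorem ok_167 : oF 0x200020030000d003a40024000400040003ffd4001 = true := by decide +kernel

theorem ok_346 : oF 0x600010019000c000240014001400140013ffe3ffe = true := by decide +kernel

theorem ok_335 : oF 0x60000002d000c000240004001400240013fff3ffd = true := by decide +kernel

theorem ok_293 : oF 0x500020003003b003340004000400140003fff4000 = true := by decide +kernel

theorem ok_83 : oF 0x2001300180008400040013fff3fff40023fff = true := by decide +kernel

theorem ok_251 : oF 0x400020016002800234002400340013ffe3fff3ffd = true := by decide +kernel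

theorem ok_577 : oF 0x1000000000000000e000c000c40014002400140003fff3ffd = true := by decide +kernel

theorem ok_10 : oF 0x21002a000b400040023ffd400240013ffe = true := by decide +kernel

theorem ok_73 : oF 0x20007002a000b400140003fff400240013ffd = true := by decide +kernel

theorem ok_125 : oF 0x10000000c00090004400440003fff3ffe3fff4000 = true := by decide +kernel

theorem ok_209 : oF 0x30002001f000f0003400340003fff3fff40003fff = true := by decide +kernel

theorem ok_398 : oF 0x7000200060039000640033fff400140003ffe3fff = true := by decide +kernel

theorem ok_430 : oF 0x70002003a00030022400040023fff3ffe40004001 = true := by decide +kernel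

theorem ok_419 : oF 0x70002002e000300214001400240003ffe3ffd4002 = true := by decide +kernel

end MPbbea99G.E6
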