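import Pool.Agent.Lib.Pbbea99G.E6.Data

/-!
# MP_bbea99_co: the group
-/

namespace MPbbea99G.E6

open MPbbea99S MPbbea99T MPbbea99G Finset

theorem g_mul : ∀ a, a < T.γ → ∀ b, b < T.γ → ∀ x, x < T.n →
    T.ac a (T.ac b x) = T.ac (T.mul a b) x := by decide +kernel

theorem g_inj : ∀ a, a < T.γ → ∀ b, b < T.γ → (∀ x, x < T.n → T.ac a x = T.ac b x) → a = b := by
  decide +kernel

theorem g_one : ∀ x, x < T.n → T.ac 0 x = x := by decide +kernel

theorem g_ilt : ∀ a, a < T.γ → T.inv a < T.γ := by decide +kernel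

theorem g_inv : ∀ a, a < T.γ → ∀ x, x < T.n → T.ac (T.inv a) (T.ac a x) = x := by decide +kernel

theorem g_inv' : ∀ a, a < T.γ → ∀ x, x < T.n → T.ac a (T.ac (T.inv a) x) = x := by
  decide +kernel

theorem g_mlt : ∀ a, a < T.γ → ∀ b, b < T.γ → T.mul a b < T.γ := by decide +kernel

theorem g_ac : ∀ κ, κ < T.γ → ∀ x, x < T.n → T.ac κ x < T.n := by decide +kernel

theorem gp : Gp T.γ T.mul T.inv :=
  gp_of_act (n := T.n) (ac := T.ac) (by decide +kernel) g_mlt g_ilt g_ac g_mul g_inj g_one g_inv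
    g_inv'

theorem h_vf : ∀ r, r < T.M → vf P r = T.inv (T.w r) := by decide +kernel

theorem h_pf : ∀ r, r < T.M → ∀ k, k < T.n → pf P r k = T.ac (T.w r) k := by decide +kernel

theorem h_pv : ∀ r, r < T.M → ∀ k, k < T.n → ∀ κ, κ < T.γ →
    T.vn (T.mul (T.inv (T.w r)) κ) k = T.vn κ (T.ac (T.w r) k) := by decide +kernel

end MPbbea99G.E6
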