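import Pool.Agent.Lib.Pbbea99G.E6.Hyp
import Pool.Agent.Lib.Pbbea99G.E6.Out
import Pool.Agent.Lib.Pbbea99G.E6.C00
import Pool.Agent.Lib.Pbbea99G.E6.O00
import Pool.Agent.Lib.Pbbea99G.E6.O01

/-!
# MP_bbea99_co: the word on 6 letters
-/

namespace MPbbea99G.E6

open MPbbea99S MPbbea99T MPbbea99G Finset

theorem c_667_671 : allTr (chkV P V lk) tr_667_671 = true := allTr_mk ck_669 c_667_669 c_670_671

theorem c_662_671 : allTr (chkV P V lk) tr_662_671 = true := allTr_mk ck_666 c_662_666 c_667_671

theorem c_630_640 : allTr (chkV P V lk) tr_630_640 = true := allTr_mk ck_635 c_630_635 c_636_640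

theorem c_462_482 : allTr (chkV P V lk) tr_462_482 = true := allTr_mk ck_472 c_462_472 c_473_482

theorem c_630_650 : allTr (chkV P V lk) tr_630_650 = true := allTr_mk ck_640 c_630_640 c_641_650

theorem c_651_671 : allTr (chkV P V lk) tr_651_671 = true := allTr_mk ck_661 c_651_661 c_662_671

theorem c_210_251 : allTr (chkV P V lk) tr_210_251 = true := allTr_mk ck_230 c_210_230 c_231_251

theorem c_336_377 : allTr (chkV P V lk) tr_336_377 = true := allTr_mk ck_356 c_336_356 c_357_377

theorem c_462_503 : allTr (chkV P V lk) tr_462_503 = true := allTr_mk ck_482 c_462_482 c_483_503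

theorem c_546_587 : allTr (chkV P V lk) tr_546_587 = true := allTr_mk ck_566 c_546_566 c_567_587

theorem c_630_671 : allTr (chkV P V lk) tr_630_671 = true := allTr_mk ck_650 c_630_650 c_651_671

theorem c_0_83 : allTr (chkV P V lk) tr_0_83 = true := allTr_mk ck_41 c_0_41 c_42_83

theorem c_168_251 : allTr (chkV P V lk) tr_168_251 = true := allTr_mk ck_209 c_168_209 c_210_251

theorem c_252_335 : allTr (chkV P V lk) tr_252_335 = true := allTr_mk ck_293 c_252_293 c_294_335

theorem c_336_419 : allTr (chkV P V lk) tr_336_419 = true := allTr_mk ck_377 c_336_377 c_378_419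

theorem c_420_503 : allTr (chkV P V lk) tr_420_503 = true := allTr_mk ck_461 c_420_461 c_462_503

theorem c_504_587 : allTr (chkV P V lk) tr_504_587 = true := allTr_mk ck_545 c_504_545 c_546_587

theorem c_588_671 : allTr (chkV P V lk) tr_588_671 = true := allTr_mk ck_629 c_588_629 c_630_671

theorem c_0_167 : allTr (chkV P V lk) tr_0_167 = true := allTr_mk ck_83 c_0_83 c_84_167

theorem c_168_335 : allTr (chkV P V lk) tr_168_335 = true := allTr_mk ck_251 c_168_251 c_252_335

theorem c_336_503 : allTr (chkV P V lk) tr_336_503 = true := allTr_mk ck_419 c_336_419 c_420_503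

theorem c_504_671 : allTr (chkV P V lk) tr_504_671 = true := allTr_mk ck_587 c_504_587 c_588_671

theorem c_0_335 : allTr (chkV P V lk) tr_0_335 = true := allTr_mk ck_167 c_0_167 c_168_335

theorem c_336_671 : allTr (chkV P V lk) tr_336_671 = true := allTr_mk ck_503 c_336_503 c_504_671

theorem c_0_671 : allTr (chkV P V lk) tr_0_671 = true := allTr_mk ck_335 c_0_335 c_336_671

theorem o_662_666 : allTr oF tr_662_666 = true := allTr_mk ok_664 o_662_664 o_665_666

theorem o_667_671 : allTr oF tr_667_671 = true := allTr_mk ok_669 o_667_669 o_670_671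

theorem o_567_572 : allTr oF tr_567_572 = true := allTr_mk ok_569 o_567_569 o_570_572

theorem o_452_461 : allTr oF tr_452_461 = true := allTr_mk ok_456 o_452_456 o_457_461

theorem o_473_482 : allTr oF tr_473_482 = true := allTr_mk ok_477 o_473_477 o_478_482

theorem o_641_650 : allTr oF tr_641_650 = true := allTr_mk ok_645 o_641_645 o_646_650

theorem o_662_671 : allTr oF tr_662_671 = true := allTr_mk ok_666 o_662_666 o_667_671

theorem o_567_577 : allTr oF tr_567_577 = true := allTr_mk ok_572 o_567_572 o_573_577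

theorem o_630_640 : allTr oF tr_630_640 = true := allTr_mk ok_635 o_630_635 o_636_640

theorem o_651_661 : allTr oF tr_651_661 = true := allTr_mk ok_656 o_651_656 o_657_661

theorem o_0_20 : allTr oF tr_0_20 = true := allTr_mk ok_10 o_0_10 o_11_20

theorem o_63_83 : allTr oF tr_63_83 = true := allTr_mk ok_73 o_63_73 o_74_83

theorem o_231_251 : allTr oF tr_231_251 = true := allTr_mk ok_241 o_231_241 o_242_251

theorem o_336_356 : allTr oF tr_336_356 = true := allTr_mk ok_346 o_336_346 o_347_356

theorem o_420_440 : allTr oF tr_420_440 = true := allTr_mk ok_430 o_420_430 o_431_440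

theorem o_441_461 : allTr oF tr_441_461 = true := allTr_mk ok_451 o_441_451 o_452_461

theorem o_462_482 : allTr oF tr_462_482 = true := allTr_mk ok_472 o_462_472 o_473_482

theorem o_546_566 : allTr oF tr_546_566 = true := allTr_mk ok_556 o_546_556 o_557_566

theorem o_567_587 : allTr oF tr_567_587 = true := allTr_mk ok_577 o_567_577 o_578_587

theorem o_630_650 : allTr oF tr_630_650 = true := allTr_mk ok_640 o_630_640 o_641_650

theorem o_651_671 : allTr oF tr_651_671 = true := allTr_mk ok_661 o_651_661 o_662_671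

theorem o_0_41 : allTr oF tr_0_41 = true := allTr_mk ok_20 o_0_20 o_21_41

theorem o_42_83 : allTr oF tr_42_83 = true := allTr_mk ok_62 o_42_62 o_63_83

theorem o_84_125 : allTr oF tr_84_125 = true := allTr_mk ok_104 o_84_104 o_105_125

theorem o_210_251 : allTr oF tr_210_251 = true := allTr_mk ok_230 o_210_230 o_231_251

theorem o_294_335 : allTr oF tr_294_335 = true := allTr_mk ok_314 o_294_314 o_315_335

theorem o_336_377 : allTr oF tr_336_377 = true := allTr_mk ok_356 o_336_356 o_357_377

theorem o_378_419 : allTr oF tr_378_419 = true := allTr_mk ok_398 o_378_398 o_399_419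

theorem o_420_461 : allTr oF tr_420_461 = true := allTr_mk ok_440 o_420_440 o_441_461

theorem o_462_503 : allTr oF tr_462_503 = true := allTr_mk ok_482 o_462_482 o_483_503

theorem o_546_587 : allTr oF tr_546_587 = true := allTr_mk ok_566 o_546_566 o_567_587

theorem o_630_671 : allTr oF tr_630_671 = true := allTr_mk ok_650 o_630_650 o_651_671

theorem o_0_83 : allTr oF tr_0_83 = true := allTr_mk ok_41 o_0_41 o_42_83

theorem o_84_167 : allTr oF tr_84_167 = true := allTr_mk ok_125 o_84_125 o_126_167

theorem o_168_251 : allTr oF tr_168_251 = true := allTr_mk ok_209 o_168_209 o_210_251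

theorem o_252_335 : allTr oF tr_252_335 = true := allTr_mk ok_293 o_252_293 o_294_335

theorem o_336_419 : allTr oF tr_336_419 = true := allTr_mk ok_377 o_336_377 o_378_419

theorem o_420_503 : allTr oF tr_420_503 = true := allTr_mk ok_461 o_420_461 o_462_503

theorem o_504_587 : allTr oF tr_504_587 = true := allTr_mk ok_545 o_504_545 o_546_587

theorem o_588_671 : allTr oF tr_588_671 = true := allTr_mk ok_629 o_588_629 o_630_671

theorem o_0_167 : allTr oF tr_0_167 = true := allTr_mk ok_83 o_0_83 o_84_167

theorem o_168_335 : allTr oF tr_168_335 = true := allTr_mk ok_251 o_168_251 o_252_335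

theorem o_336_503 : allTr oF tr_336_503 = true := allTr_mk ok_419 o_336_419 o_420_503

theorem o_504_671 : allTr oF tr_504_671 = true := allTr_mk ok_587 o_504_587 o_588_671

theorem o_0_335 : allTr oF tr_0_335 = true := allTr_mk ok_167 o_0_167 o_168_335

theorem o_336_671 : allTr oF tr_336_671 = true := allTr_mk ok_503 o_336_503 o_504_671

theorem o_0_671 : allTr oF tr_0_671 = true := allTr_mk ok_335 o_0_335 o_336_671

/-- the sequence of types -/
noncomputable def y : ℕ → ℕ := gs T.M T.mul T.w

theorem y_isG : IsG T.γ T.M T.mul T.w y := gs_isG gp (by decide +kernel) t_w (by decide +kernel)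

theorem hlk : ∀ ia ib ic ie t, lk ia ib ic ie t = true → chkV P V lk t = true :=
  fun _ _ _ _ _ h => memTr_spec c_0_671 h

theorem hbf : ∀ i, i < P.M → bf Q i = bf Q 0 := by decide +kernel

theorem hout : ∀ ia ib ic ie t, ia < P.M → ib < P.M → ic < P.M → ie < P.M →
    lk ia ib ic ie t = true → chkOV P VO Q t ia ib ic ie = true :=
  fun _ _ _ _ _ ha hb hc he h => chkOV_one hbf ha hb hc he (memTr_spec o_0_671 h)

theorem zero : ∃ t, chkV P V lk t = true ∧ Match P.n P.A P.B 16384 T.mul T.inv y T.vc t 0 0 0 0 := by
  refine ⟨0x10001000100050001000000000000400040004000400040004000, memTr_spec c_0_671 (by decide +kernel), ?_⟩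
  apply match_zero gp y_isG.lt <;> decide +kernel

/-- `𝒜(s,6)` holds for all `s` above the threshold -/
theorem avoid (s : ℝ) (hs1 : 1 < s) (hs2 : (2 : ℝ) < (s - 1) * (3 + 2)) : Avoid s 6 := by
  have h := avoid_mainV chyp vok y_isG cert hlk hout zero act le_rfl vok' ohyp ocert s hs1
    (by
      have e1 : ((P.B : ℕ) : ℝ) = 2 := by norm_num [P]
      have e2 : ((P.A : ℕ) : ℝ) = 3 := by norm_num [P]
      rw [e1, e2]
      exact hs2)
  exact h

end MPbbea99G.E6
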