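import Pool.Agent.Lib.Pbbea99G.E6.Tok
import Pool.Agent.Lib.Pbbea99G.E6.Grp
import Pool.Agent.Lib.Pbbea99G.E6.TabG00
import Pool.Agent.Lib.Pbbea99G.E6.TabG01
import Pool.Agent.Lib.Pbbea99G.E6.TabG02
import Pool.Agent.Lib.Pbbea99G.E6.TabG03
import Pool.Agent.Lib.Pbbea99G.E6.TabG10
import Pool.Agent.Lib.Pbbea99G.E6.TabG11
import Pool.Agent.Lib.Pbbea99G.E6.TabG12
import Pool.Agent.Lib.Pbbea99G.E6.TabG13

/-!
# MP_bbea99_co: the closure hypotheses
-/

namespace MPbbea99G.E6

open MPbbea99S MPbbea99T MPbbea99G Finset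

theorem h_gT : ∀ ro, ro < 2 → ∀ κ, κ < T.γ → nthL P.gT (T.γ * ro + κ) = T.gTf P.WL ro κ := by
  intro ro hro κ hκ
  have hγ : T.γ = 60 := rfl
  rw [hγ] at hκ
  obtain rfl | rfl : ro = 0 ∨ ro = 1 := by omega
  · rcases (by omega : κ < 15 ∨ (15 ≤ κ ∧ κ < 30) ∨ (30 ≤ κ ∧ κ < 45) ∨ (45 ≤ κ)) with h | h | h | h
    · have := tg00 (κ - 0) (by omega)
      rwa [show 0 + (κ - 0) = κ by omega] at this
    · have := tg01 (κ - 15) (by omega)
      rwa [show 15 + (κ - 15) = κ by omega] at this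
    · have := tg02 (κ - 30) (by omega)
      rwa [show 30 + (κ - 30) = κ by omega] at this
    · have := tg03 (κ - 45) (by omega)
      rwa [show 45 + (κ - 45) = κ by omega] at this
  · rcases (by omega : κ < 15 ∨ (15 ≤ κ ∧ κ < 30) ∨ (30 ≤ κ ∧ κ < 45) ∨ (45 ≤ κ)) with h | h | h | h
    · have := tg10 (κ - 0) (by omega)
      rwa [show 0 + (κ - 0) = κ by omega] at this
    · have := tg11 (κ - 15) (by omega)
      rwa [show 15 + (κ - 15) = κ by omega] at this
    · have := tg12 (κ - 30) (by omega)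
      rwa [show 30 + (κ - 30) = κ by omega] at this
    · have := tg13 (κ - 45) (by omega)
      rwa [show 45 + (κ - 45) = κ by omega] at this

theorem h_sT : ∀ ro, ro < 2 → ∀ κ, κ < T.γ → nthL P.sT (T.γ * ro + κ) = T.sTf P.WS ro κ := by
  intro ro hro κ hκ
  have hγ : T.γ = 60 := rfl
  rw [hγ] at hκ
  obtain rfl | rfl : ro = 0 ∨ ro = 1 := by omega
  · rcases (by omega : κ < 15 ∨ (15 ≤ κ ∧ κ < 30) ∨ (30 ≤ κ ∧ κ < 45) ∨ (45 ≤ κ)) with h | h | h | h
    · have := ts00 (κ - 0) (by omega)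
      rwa [show 0 + (κ - 0) = κ by omega] at this
    · have := ts01 (κ - 15) (by omega)
      rwa [show 15 + (κ - 15) = κ by omega] at this
    · have := ts02 (κ - 30) (by omega)
      rwa [show 30 + (κ - 30) = κ by omega] at this
    · have := ts03 (κ - 45) (by omega)
      rwa [show 45 + (κ - 45) = κ by omega] at this
  · rcases (by omega : κ < 15 ∨ (15 ≤ κ ∧ κ < 30) ∨ (30 ≤ κ ∧ κ < 45) ∨ (45 ≤ κ)) with h | h | h | h
    · have := ts10 (κ - 0) (by omega)
      rwa [show 0 + (κ - 0) = κ by omega] at this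
    · have := ts11 (κ - 15) (by omega)
      rwa [show 15 + (κ - 15) = κ by omega] at this
    · have := ts12 (κ - 30) (by omega)
      rwa [show 30 + (κ - 30) = κ by omega] at this
    · have := ts13 (κ - 45) (by omega)
      rwa [show 45 + (κ - 45) = κ by omega] at this

theorem h_xC : ∀ ro, ro < 2 → ∀ κ, κ < T.γ → chkX T P ro κ = true := by
  intro ro hro κ hκ
  have hγ : T.γ = 60 := rfl
  rw [hγ] at hκ
  obtain rfl | rfl : ro = 0 ∨ ro = 1 := by omega
  · rcases (by omega : κ < 15 ∨ (15 ≤ κ ∧ κ < 30) ∨ (30 ≤ κ ∧ κ < 45) ∨ (45 ≤ κ)) with h | h | h | h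
    · have := tx00 (κ - 0) (by omega)
      rwa [show 0 + (κ - 0) = κ by omega] at this
    · have := tx01 (κ - 15) (by omega)
      rwa [show 15 + (κ - 15) = κ by omega] at this
    · have := tx02 (κ - 30) (by omega)
      rwa [show 30 + (κ - 30) = κ by omega] at this
    · have := tx03 (κ - 45) (by omega)
      rwa [show 45 + (κ - 45) = κ by omega] at this
  · rcases (by omega : κ < 15 ∨ (15 ≤ κ ∧ κ < 30) ∨ (30 ≤ κ ∧ κ < 45) ∨ (45 ≤ κ)) with h | h | h | h
    · have := tx10 (κ - 0) (by omega)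
      rwa [show 0 + (κ - 0) = κ by omega] at this
    · have := tx11 (κ - 15) (by omega)
      rwa [show 15 + (κ - 15) = κ by omega] at this
    · have := tx12 (κ - 30) (by omega)
      rwa [show 30 + (κ - 30) = κ by omega] at this
    · have := tx13 (κ - 45) (by omega)
      rwa [show 45 + (κ - 45) = κ by omega] at this

theorem h_HI : P.HI = pkR T.W (fun _ => 2 ^ (T.W - 1)) T.L := by decide +kernel

theorem h_xT : ∀ ro, ro < 2 → ∀ κ, κ < T.γ → nthL P.xT (T.γ * ro + κ) =
    pkR T.W (fun f => xBf T P ro κ f) T.L := by decide +kernel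

theorem h_xB : ∀ ro, ro < 2 → ∀ κ, κ < T.γ → ∀ f, f < T.L → xBf T P ro κ f ≤ 5999 := by
  decide +kernel

theorem h_um : ∀ f, f < T.L → ∀ ro, ro < 2 → ∀ κ, κ < T.γ → T.un f ro κ ≤ 60 := by decide +kernel

theorem h_3 : ∀ f, f < T.L → ∀ ro, ro < 2 → ∀ κ, κ < T.γ →
    xBf T P ro κ f ≤ T.n * T.v0 * T.cx * T.M + T.lam * T.un f ro κ := by decide +kernel

theorem h_L : P.LB = pkR P.WL (fun k => pkR T.W (T.lB k) T.L) T.n := by decide +kernel

theorem h_C : P.CB = pkR T.W T.cB T.L := by decide +kernel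

theorem h_C1 : ∀ f, f < T.L → T.h * sumN (fun k => T.lB k f) T.n ≤ T.C1 := by decide +kernel

theorem h_LS : P.LS = pkR P.WS (fun k => pkR 16 (T.lS k) T.n) T.n := by decide +kernel

theorem h_CS : P.CS = pkR 16 T.cS T.n := by decide +kernel

theorem chyp : CHyp P T.W T.L T.mul T.inv T.w T.vc T.χ T.th T.U T.q T.qc T.lam T.h 16384
      (fun r k => T.ac (T.w r) k) T.gB (xBf T P) T.lB T.cB T.gS T.lS T.cS T.C1 (T.bt * T.M)
      (T.lam * T.cx) (T.lam * (2 * T.cx)) T.C1 5999 T.C2 (T.v0 * T.M) T.lam T.C2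
      (2 * T.v0 * T.M) :=
  Tb.mkCHyp tok gp 16384 60 5999 (hh := by decide +kernel) (en := rfl) (eγ := rfl) (eM := rfl)
    (hB := by decide +kernel) (hAB := by decide +kernel) (em := rfl) (ew := rfl) (hvf := h_vf)
    (hpf := h_pf) (hπv := h_pv) (hWL := by decide +kernel) (hML := by decide +kernel)
    (hWS := by decide +kernel) (hMS := by decide +kernel) (hHI := h_HI) (hgT := h_gT)
    (hxT := h_xT) (hxB := h_xB) (hBX := by decide +kernel) (hxC := h_xC) (hum := h_um)
    (hbG := by decide +kernel) (hL := h_L) (hC := h_C) (hC1 := h_C1)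
    (hbias := by decide +kernel) (hbd := by decide +kernel) (hsT := h_sT)
    (hbS := by decide +kernel) (hLS := h_LS) (hCS := h_CS) (hC2 := by decide +kernel)
    (hbiasS := by decide +kernel) (hK1 := by decide +kernel) (hnh := by decide +kernel)
    (hbdS := by decide +kernel)

theorem vok : VOK V T.W T.L P.M :=
  mkVOK (by decide +kernel) (by decide +kernel) (by decide +kernel) (by decide +kernel)
    (by decide +kernel) (by decide +kernel) (by decide +kernel) (by decide +kernel)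
    (by decide +kernel) (by decide +kernel) (by decide +kernel)

theorem cert : Cert T.γ T.M T.L T.mul T.w T.th T.U T.q T.lam :=
  Tb.mkCert (P := P) (um := 60) (BX := 5999) tok (by decide +kernel) (by decide +kernel)
    (by decide +kernel) h_HI h_gT h_xT h_xB (by decide +kernel) h_xC h_um (by decide +kernel) h_3

end MPbbea99G.E6
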